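import Pool.Agent.Z705.Defs
import Pool.Agent.Y232.ZI.Ind3

/-! Z705: the parity of the Gross sum, any number of doubly inert primes (IND). -/

set_option autoImplicit false

namespace Pool.Agent.Z141.ZE

open Finset Matrix
open Pool.Agent.Z700 (V3 vec chv Ln n0 ep sgl Sg pr X2 Yd lres xres S_SG1 S_TREE)
open Pool.Agent.Z705
open Pool.Agent.Y17.N (Sp eQ)
open Pool.Agent.Y17.G (In sp inn i3 i5 Cl Ty adm ex bt s7 ei Cond cnd FixR)
open Pool.Agent.Y232.ZI (ep_val split_ep lres_val lres_symm xres_sum Yd_empty par_aux)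
open Pool.Agent.Y232.ZJ (odd_congr dvd_of_odd ker_iff)

/-! ### the classes -/

theorem sq_eq (p : ℕ) : ((p : ℕ) : ZMod 7) = ((p % 7 : ℕ) : ZMod 7) := (ZMod.natCast_mod p 7).symm

theorem s7_sp {p : ℕ} (h : Sp p) : (s7 p) ^ 2 = (p : ZMod 7) := by
  rw [sq_eq p]
  unfold s7
  rcases h.2.2 with h | h | h <;> rw [h] <;> decide

theorem s7_in {p : ℕ} (h : In p) : (s7 p) ^ 2 = -(p : ZMod 7) := by
  rw [sq_eq p]
  unfold s7
  rcases h.2.2 with h | h | h <;> rw [h] <;> decide

theorem s7_ne (p : ℕ) : s7 p ≠ 0 := by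
  unfold s7
  split_ifs <;> decide

theorem cl_sub {A D : Finset ℕ} (hA : Cl A) (hD : D ⊆ A) : Cl D :=
  ⟨fun p hp => hA.1 p (hD hp), fun h => hA.2 (hD h)⟩

theorem cl_prime {A : Finset ℕ} (hA : Cl A) {p : ℕ} (hp : p ∈ A) : p.Prime := by
  rcases hA.1 p hp with h | h
  · exact h.1
  · exact h.1

theorem cl_mod8 {A : Finset ℕ} (hA : Cl A) {p : ℕ} (hp : p ∈ A) :
    p % 8 = 1 ∨ p % 8 = 3 ∨ p % 8 = 5 := by
  rcases hA.1 p hp with h | h
  · exact Or.inl h.2.1
  · exact Or.inr h.2.1

theorem inn_eq {A : Finset ℕ} (hA : Cl A) : inn A = i3 A ∪ i5 A := by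
  ext p
  unfold inn i3 i5
  rw [mem_union, mem_filter, mem_filter, mem_filter]
  constructor
  · rintro ⟨h1, h2⟩
    rcases cl_mod8 hA h1 with h | h | h
    · exact absurd h h2
    · exact Or.inl ⟨h1, h⟩
    · exact Or.inr ⟨h1, h⟩
  · rintro (⟨h1, h2⟩ | ⟨h1, h2⟩)
    · exact ⟨h1, by omega⟩
    · exact ⟨h1, by omega⟩

theorem disj35 (A B : Finset ℕ) : Disjoint (i3 A) (i5 B) := by
  rw [disjoint_left]
  intro x h1 h2
  have a1 := (mem_filter.1 h1).2
  have a2 := (mem_filter.1 h2).2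
  omega

theorem inn_card {A : Finset ℕ} (hA : Cl A) : (inn A).card = (i3 A).card + (i5 A).card := by
  rw [inn_eq hA]
  exact card_union_of_disjoint (disj35 A A)

theorem inn_even {A : Finset ℕ} (hA : Cl A) (hT : Ty 0 A) : (inn A).card % 2 = 0 := by
  rw [inn_card hA]
  have := hT.1
  have := hT.2
  omega

theorem bt_sq {A : Finset ℕ} (hA : Cl A) : bt A ^ 2 = (-1) ^ (inn A).card * (pr A : ZMod 7) := by
  have h1 : ∀ p ∈ A, (s7 p) ^ 2 = (if ¬ p % 8 = 1 then (-1 : ZMod 7) else 1) * (p : ZMod 7) := by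
    intro p hp
    rcases hA.1 p hp with h | h
    · rw [if_neg (not_not.2 h.2.1), one_mul]
      exact s7_sp h
    · rw [if_pos (by have := h.2.1; omega), s7_in h]
      ring
  unfold bt inn pr
  rw [← prod_pow, prod_congr rfl h1, prod_mul_distrib, prod_ite, prod_const, prod_const_one,
    mul_one]
  push_cast
  rfl

theorem bt_sq0 {A : Finset ℕ} (hA : Cl A) (hT : Ty 0 A) : bt A ^ 2 = (pr A : ZMod 7) := by
  rw [bt_sq hA, Even.neg_one_pow (Nat.even_iff.2 (inn_even hA hT)), one_mul]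

theorem bt_ne (A : Finset ℕ) : bt A ≠ 0 := by
  have : Fact (Nat.Prime 7) := ⟨by norm_num⟩
  unfold bt
  exact prod_ne_zero_iff.2 fun p _ => s7_ne p

theorem pr_mod8 {A : Finset ℕ} (hA : Cl A) :
    (pr A : ZMod 8) = 3 ^ (i3 A).card * 5 ^ (i5 A).card := by
  have h1 : ∀ p ∈ A, (p : ZMod 8) = (if p % 8 = 3 then (3 : ZMod 8) else 1) *
      (if p % 8 = 5 then (5 : ZMod 8) else 1) := by
    intro p hp
    have e : (p : ZMod 8) = ((p % 8 : ℕ) : ZMod 8) := (ZMod.natCast_mod p 8).symm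
    rw [e]
    rcases cl_mod8 hA hp with h | h | h <;> rw [h] <;> decide
  unfold pr i3 i5
  push_cast
  rw [prod_congr rfl h1, prod_mul_distrib, prod_ite, prod_ite, prod_const, prod_const_one,
    prod_const, prod_const_one, mul_one, mul_one]

theorem sqf {A : Finset ℕ} (hA : ∀ p ∈ A, p.Prime) : Squarefree (pr A) := by
  induction A using Finset.induction_on with
  | empty =>
    unfold pr
    rw [prod_empty]
    exact squarefree_one
  | insert a t ha ih =>
    have e : pr (insert a t) = a * pr t := by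
      unfold pr
      rw [prod_insert ha]
    have hap := hA a (mem_insert_self a t)
    rw [e, Nat.squarefree_mul_iff]
    refine ⟨?_, hap.squarefree, ih fun p hp => hA p (mem_insert_of_mem hp)⟩
    unfold pr
    refine Nat.Coprime.prod_right fun i hi => ?_
    rw [Nat.coprime_primes hap (hA i (mem_insert_of_mem hi))]
    rintro rfl
    exact ha hi

theorem pr_ok {A : Finset ℕ} (hA : Cl A) (hT : Ty 0 A) : Ok (pr A) := by
  refine ⟨sqf fun p hp => cl_prime hA hp, ?_, ?_, ?_⟩
  · have h1 := pr_mod8 hA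
    obtain ⟨a, ha⟩ := Nat.even_iff.2 hT.1
    obtain ⟨b, hb⟩ := Nat.even_iff.2 hT.2
    have e3 : (3 : ZMod 8) * 3 = 1 := by decide
    have e5 : (5 : ZMod 8) * 5 = 1 := by decide
    rw [ha, hb, pow_add, pow_add, ← mul_pow, ← mul_pow, e3, e5, one_pow, one_pow, one_mul] at h1
    have h2 : ((pr A : ℕ) : ZMod 8) = ((1 : ℕ) : ZMod 8) := by rw [h1, Nat.cast_one]
    have h3 := (ZMod.natCast_eq_natCast_iff' _ _ _).1 h2
    omega
  · intro h
    unfold pr at h
    obtain ⟨p, hp, hp3⟩ := (Nat.prime_three.prime.dvd_finset_prod_iff _).1 h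
    have := (Nat.prime_dvd_prime_iff_eq Nat.prime_three (cl_prime hA hp)).1 hp3
    rw [← this] at hp
    exact hA.2 hp
  · have h1 := bt_sq0 hA hT
    have h2 : ∀ x : ZMod 7, x ≠ 0 → x ^ 2 = ((1 : ℕ) : ZMod 7) ∨ x ^ 2 = ((2 : ℕ) : ZMod 7) ∨
        x ^ 2 = ((4 : ℕ) : ZMod 7) := by decide
    rcases h2 (bt A) (bt_ne A) with h3 | h3 | h3
    · rw [h1] at h3
      have h4 := (ZMod.natCast_eq_natCast_iff' _ _ _).1 h3
      left
      omega
    · rw [h1] at h3
      have h4 := (ZMod.natCast_eq_natCast_iff' _ _ _).1 h3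
      right
      left
      omega
    · rw [h1] at h3
      have h4 := (ZMod.natCast_eq_natCast_iff' _ _ _).1 h3
      right
      right
      omega

theorem pr_bt {A : Finset ℕ} (hA : Cl A) (hT : Ty 0 A) : Bt (pr A) (2 * bt A) := by
  unfold Bt
  rw [mul_pow, bt_sq0 hA hT]
  have : (2 : ZMod 7) ^ 2 = -3 := by decide
  rw [this]
  ring

theorem pr_empty : pr ∅ = 1 := by
  unfold pr
  exact prod_empty

theorem pr_one_lt {A : Finset ℕ} (hA : Cl A) (hne : A.Nonempty) : 1 < pr A := by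
  obtain ⟨p, hp⟩ := hne
  have h1 : p ∣ pr A := by
    unfold pr
    exact dvd_prod_of_mem (fun p => p) hp
  have h2 : pr A ≠ 0 := (sqf fun p hp => cl_prime hA hp).ne_zero
  have h3 := Nat.le_of_dvd (Nat.pos_of_ne_zero h2) h1
  have h4 := (cl_prime hA hp).two_le
  omega

theorem bt_empty : bt ∅ = 1 := by
  unfold bt
  exact prod_empty

theorem bt_mul {A D : Finset ℕ} (hD : D ⊆ A) : bt D * bt (A \ D) = bt A := by
  unfold bt
  rw [mul_comm]
  exact prod_sdiff hD

theorem mem_adm {A D : Finset ℕ} : D ∈ adm 0 A ↔ D ⊆ A ∧ Ty 0 D := by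
  unfold adm
  rw [mem_filter, mem_powerset]

theorem i3_mono {D P : Finset ℕ} (h : D ⊆ P) : i3 D ⊆ i3 P := filter_subset_filter _ h

theorem i5_mono {D P : Finset ℕ} (h : D ⊆ P) : i5 D ⊆ i5 P := filter_subset_filter _ h

theorem inn_mono {D P : Finset ℕ} (h : D ⊆ P) : inn D ⊆ inn P := filter_subset_filter _ h

theorem sp_mono {D P : Finset ℕ} (h : D ⊆ P) : sp D ⊆ sp P := filter_subset_filter _ h

theorem filter_sdf (f : ℕ → Prop) [DecidablePred f] (P D : Finset ℕ) :
    (P \ D).filter f = P.filter f \ D.filter f := by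
  ext p
  simp only [mem_filter, mem_sdiff]
  constructor
  · rintro ⟨⟨a, b⟩, c⟩
    exact ⟨⟨a, c⟩, fun h => b h.1⟩
  · rintro ⟨⟨a, c⟩, b⟩
    exact ⟨⟨a, fun h => b ⟨h, c⟩⟩, c⟩

theorem inn_sdiff (P D : Finset ℕ) : inn (P \ D) = inn P \ inn D := filter_sdf _ P D

theorem sp_sdiff (P D : Finset ℕ) : sp (P \ D) = sp P \ sp D := filter_sdf _ P D

theorem ty_sdiff {P D : Finset ℕ} (hP : Ty 0 P) (hD : D ⊆ P) (he : Ty 0 D) : Ty 0 (P \ D) := by
  unfold Ty at *
  have e3 : i3 (P \ D) = i3 P \ i3 D := filter_sdf _ P D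
  have e5 : i5 (P \ D) = i5 P \ i5 D := filter_sdf _ P D
  rw [e3, e5, card_sdiff_of_subset (i3_mono hD), card_sdiff_of_subset (i5_mono hD)]
  have h3 := card_le_card (i3_mono hD)
  have h5 := card_le_card (i5_mono hD)
  omega

/-- the exponent -/
def eE (D : Finset ℕ) : ℕ := (sp D).card + (inn D).card / 2

theorem eE_add {P D : Finset ℕ} (hP : Cl P) (hD : D ⊆ P) (he : Ty 0 D) :
    eE P = eE D + eE (P \ D) := by
  unfold eE
  rw [inn_sdiff, sp_sdiff, card_sdiff_of_subset (inn_mono hD), card_sdiff_of_subset (sp_mono hD)]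
  have h1 := card_le_card (inn_mono hD)
  have h2 := card_le_card (sp_mono hD)
  have h3 := inn_even (cl_sub hP hD) he
  omega

/-- the expected parity -/
noncomputable def zz (D : Finset ℕ) : ℤ := Yd lres (fun p => xres p + ei D p) (sp D)

theorem zz_empty : zz ∅ = 1 := by
  unfold zz
  have : sp ∅ = ∅ := by
    unfold sp
    rw [filter_empty]
  rw [this]
  exact Yd_empty lres _

/-- the normalized Gross sums -/
noncomputable def pi' (D : Finset ℕ) : ℤ := W3 (pr D) (2 * bt D)

theorem pi_empty (h1 : S_SG1) : pi' ∅ = 1 := by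
  have hn : (n0 : Fin 3 → ZMod 7) ≠ 0 := by
    intro h
    have := congrFun h 0
    revert this
    decide
  have hi : (n0 0) ^ 2 + (n0 1) ^ 2 + (n0 2) ^ 2 = 0 := by decide
  obtain ⟨a, b⟩ := h1 n0 hn hi
  have hs : sgl n0 = 1 := by
    unfold sgl
    rw [if_pos (by decide)]
  rw [if_pos hs] at a b
  have e1 : pi' ∅ = Sg 3 n0 2 1 + Sg 3 n0 2 (-1) := by
    unfold pi' W3 Sg
    rw [pr_empty, bt_empty, mul_one]
    have e2 : (3 * ((1 : ℕ) : ℤ)) = 3 := by norm_num
    rw [e2]
    exact split_ep (vec 3) (fun v => Ln n0 2 v) chv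
  rw [e1, a, b]
  norm_num

theorem pr_cop {P D : Finset ℕ} (hP : Cl P) (hD : D ⊆ P) : Nat.Coprime (pr D) (pr (P \ D)) := by
  unfold pr
  refine Nat.Coprime.prod_left fun i hi => Nat.Coprime.prod_right fun j hj => ?_
  rw [Nat.coprime_primes (cl_prime hP (hD hi)) (cl_prime hP (mem_sdiff.1 hj).1)]
  rintro rfl
  exact (mem_sdiff.1 hj).2 hi

theorem pair_ok {P D : Finset ℕ} (hP : Cl P) (hT : Ty 0 P) (hne : P.Nonempty) (hD : D ⊆ P)
    (hTD : Ty 0 D) : PairOK (pr D) (pr (P \ D)) (2 * bt D) (2 * bt (P \ D)) := by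
  have c1 := cl_sub hP hD
  have c2 : Cl (P \ D) := cl_sub hP sdiff_subset
  have t2 := ty_sdiff hT hD hTD
  have key : ∀ E : Finset ℕ, Cl E → pr E = 1 → 2 * bt E = 2 := by
    intro E hE h
    rcases E.eq_empty_or_nonempty with h0 | h0
    · rw [h0, bt_empty, mul_one]
    · have := pr_one_lt hE h0
      omega
  refine ⟨pr_ok c1 hTD, pr_ok c2 t2, pr_bt c1 hTD, pr_bt c2 t2, key D c1, key _ c2,
    Or.inl (pr_cop hP hD), ?_⟩
  obtain ⟨p0, hp0⟩ := hne
  by_cases h : p0 ∈ D
  · exact Or.inl (pr_one_lt c1 ⟨p0, h⟩)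
  · exact Or.inr (pr_one_lt c2 ⟨p0, mem_sdiff.2 ⟨hp0, h⟩⟩)

/-- the induction step, for a normalized value of the sum over the splittings -/
theorem core (h1 : S_SG1) (hb : S_BIL) {P : Finset ℕ} (hP : Cl P) (hT : Ty 0 P) {p0 : ℕ}
    (hp0 : p0 ∈ P)
    (ih : ∀ D ⊂ P, Cl D → Ty 0 D → D.Nonempty →
      ∃ y : ℤ, pi' D = 3 * 2 ^ eE D * y ∧ (Odd y ↔ Odd (zz D)))
    {M : ℤ} (hM : ∑ D ∈ adm 0 P, RM (pr D) (pr (P \ D)) (-(4 * bt P)) = 2 ^ eE P * M)
    (hMT : Odd M ↔ Odd (∑ D ∈ (adm 0 P).filter (fun D => p0 ∈ D), zz D * zz (P \ D))) :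
    ∃ y : ℤ, pi' P = 3 * 2 ^ eE P * y ∧ (Odd y ↔ Odd (zz P)) := by
  classical
  obtain ⟨y, hydef⟩ : ∃ y : Finset ℕ → ℤ, y = fun D => pi' D / (3 * 2 ^ eE D) := ⟨_, rfl⟩
  have hy : ∀ D ⊆ P, Ty 0 D → D.Nonempty → D ≠ P → pi' D = 3 * 2 ^ eE D * y D ∧
      (Odd (y D) ↔ Odd (zz D)) := by
    intro D hD hDe hDn hDP
    obtain ⟨z, hz1, hz2⟩ := ih D (Finset.ssubset_iff_subset_ne.2 ⟨hD, hDP⟩)
      (cl_sub hP hD) hDe hDn
    have : y D = z := by
      rw [hydef]
      show pi' D / (3 * 2 ^ eE D) = z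
      rw [hz1]
      exact Int.mul_ediv_cancel_left _ (by positivity)
    rw [this]
    exact ⟨hz1, hz2⟩
  have hsum : ∑ D ∈ adm 0 P, pi' D * pi' (P \ D) = 6 * (2 ^ eE P * M) := by
    rw [← hM, mul_sum]
    apply sum_congr rfl
    intro D hD
    have hD' := mem_adm.1 hD
    have h2 := hb _ _ _ _ (pair_ok hP hT ⟨p0, hp0⟩ hD'.1 hD'.2)
    have h3 : 2 * bt D * (2 * bt (P \ D)) = 4 * bt P := by
      rw [← bt_mul hD'.1]
      ring
    rw [h3] at h2
    exact h2
  have hsplit : ∑ D ∈ adm 0 P, pi' D * pi' (P \ D) =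
      2 * ∑ D ∈ (adm 0 P).filter (fun D => p0 ∈ D), pi' D * pi' (P \ D) := by
    rw [← sum_filter_add_sum_filter_not (adm 0 P) (fun D => p0 ∈ D)]
    have : ∑ D ∈ (adm 0 P).filter (fun D => ¬ p0 ∈ D), pi' D * pi' (P \ D) =
        ∑ D ∈ (adm 0 P).filter (fun D => p0 ∈ D), pi' D * pi' (P \ D) := by
      refine Finset.sum_bij' (fun D _ => P \ D) (fun D _ => P \ D) ?_ ?_ ?_ ?_ ?_
      · intro D hD
        rw [mem_filter, mem_adm] at hD ⊢
        exact ⟨⟨sdiff_subset, ty_sdiff hT hD.1.1 hD.1.2⟩, mem_sdiff.2 ⟨hp0, hD.2⟩⟩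
      · intro D hD
        rw [mem_filter, mem_adm] at hD ⊢
        exact ⟨⟨sdiff_subset, ty_sdiff hT hD.1.1 hD.1.2⟩, fun h => (mem_sdiff.1 h).2 hD.2⟩
      · intro D hD
        rw [mem_filter, mem_adm] at hD
        exact Finset.sdiff_sdiff_eq_self hD.1.1
      · intro D hD
        rw [mem_filter, mem_adm] at hD
        exact Finset.sdiff_sdiff_eq_self hD.1.1
      · intro D hD
        rw [mem_filter, mem_adm] at hD
        rw [Finset.sdiff_sdiff_eq_self hD.1.1, mul_comm]
    rw [this]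
    ring
  have hPmem : P ∈ (adm 0 P).filter (fun D => p0 ∈ D) := by
    rw [mem_filter, mem_adm]
    exact ⟨⟨Subset.refl P, hT⟩, hp0⟩
  obtain ⟨F, hF⟩ : ∃ F, F = ((adm 0 P).filter (fun D => p0 ∈ D)).erase P := ⟨_, rfl⟩
  have hFm : ∀ D ∈ F, D ⊆ P ∧ D.Nonempty ∧ D ≠ P ∧ (P \ D).Nonempty ∧ P \ D ≠ P ∧
      Ty 0 D := by
    intro D hD
    rw [hF, mem_erase, mem_filter, mem_adm] at hD
    obtain ⟨a1, ⟨a2, a4⟩, a3⟩ := hD
    refine ⟨a2, ⟨p0, a3⟩, a1, ?_, ?_, a4⟩
    · rw [Finset.sdiff_nonempty]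
      intro h
      exact a1 (Subset.antisymm a2 h)
    · intro h
      rw [← h] at hp0
      exact (mem_sdiff.1 hp0).2 a3
  have hs1 : ∑ D ∈ (adm 0 P).filter (fun D => p0 ∈ D), pi' D * pi' (P \ D) =
      pi' P + 9 * 2 ^ eE P * ∑ D ∈ F, y D * y (P \ D) := by
    rw [← Finset.add_sum_erase _ _ hPmem, sdiff_self, ← hF, mul_sum]
    have e0 : pi' P * pi' ∅ = pi' P := by rw [pi_empty h1, mul_one]
    have e0' : pi' P * pi' (⊥ : Finset ℕ) = pi' P := e0
    rw [e0']
    congr 1
    apply sum_congr rfl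
    intro D hD
    obtain ⟨a1, a2, a3, a4, a5, a6⟩ := hFm D hD
    rw [(hy D a1 a6 a2 a3).1, (hy (P \ D) sdiff_subset (ty_sdiff hT a1 a6) a4 a5).1]
    have hc : (2 : ℤ) ^ eE P = 2 ^ eE D * 2 ^ eE (P \ D) := by
      rw [← pow_add, eE_add hP a1 a6]
    rw [hc]
    ring
  have hs2 : ∑ S ∈ (adm 0 P).filter (fun S => p0 ∈ S), zz S * zz (P \ S) =
      zz P + ∑ D ∈ F, zz D * zz (P \ D) := by
    rw [← Finset.add_sum_erase _ _ hPmem, sdiff_self, ← hF]
    have e0 : zz P * zz (⊥ : Finset ℕ) = zz P := by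
      have : zz (⊥ : Finset ℕ) = 1 := zz_empty
      rw [this, mul_one]
    rw [e0]
  refine ⟨M - 3 * ∑ D ∈ F, y D * y (P \ D), ?_, ?_⟩
  · have h2 : 2 * (pi' P + 9 * 2 ^ eE P * ∑ D ∈ F, y D * y (P \ D)) =
        6 * (2 ^ eE P * M) := by
      rw [← hs1, ← hsplit, hsum]
    linarith
  · rw [hs2] at hMT
    have hcong : (Odd (∑ D ∈ F, y D * y (P \ D)) ↔ Odd (∑ D ∈ F, zz D * zz (P \ D))) := by
      apply odd_congr
      intro D hD
      obtain ⟨a1, a2, a3, a4, a5, a6⟩ := hFm D hD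
      have q1 := dvd_of_odd (hy D a1 a6 a2 a3).2
      have q2 := dvd_of_odd (hy (P \ D) sdiff_subset (ty_sdiff hT a1 a6) a4 a5).2
      have e : y D * y (P \ D) - zz D * zz (P \ D) =
          (y D - zz D) * y (P \ D) + zz D * (y (P \ D) - zz (P \ D)) := by ring
      rw [e]
      exact dvd_add (Dvd.dvd.mul_right q1 _) (Dvd.dvd.mul_left q2 _)
    exact par_aux hMT hcong

/-! ### inert primes -/

/-- the diagonal part -/
def eS (S : Finset ℕ) (p : ℕ) : ℤ := ∑ r ∈ S, eQ r p

theorem eS_sdiff {S R : Finset ℕ} (h : S ⊆ R) (k : ℕ) : eS S k + eS (R \ S) k = eS R k := by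
  unfold eS
  rw [add_comm]
  exact sum_sdiff h

theorem inn_un {P S Q : Finset ℕ} (hS : S ⊆ inn P) (hQ : Q ⊆ sp P) : inn (S ∪ Q) = S := by
  ext p
  unfold inn
  rw [mem_filter, mem_union]
  constructor
  · rintro ⟨h1 | h1, h2⟩
    · exact h1
    · have := (mem_filter.1 (hQ h1)).2
      omega
  · intro h
    exact ⟨Or.inl h, (mem_filter.1 (hS h)).2⟩

theorem sp_un {P S Q : Finset ℕ} (hS : S ⊆ inn P) (hQ : Q ⊆ sp P) : sp (S ∪ Q) = Q := by
  ext p
  unfold sp
  rw [mem_filter, mem_union]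
  constructor
  · rintro ⟨h1 | h1, h2⟩
    · have := (mem_filter.1 (hS h1)).2
      omega
    · exact h1
  · intro h
    exact ⟨Or.inr h, (mem_filter.1 (hQ h)).2⟩

theorem ty_un {P S Q : Finset ℕ} (hQ : Q ⊆ sp P) : Ty 0 (S ∪ Q) ↔ Ty 0 S := by
  have e3 : i3 (S ∪ Q) = i3 S := by
    ext p
    unfold i3
    rw [mem_filter, mem_filter, mem_union]
    constructor
    · rintro ⟨h1 | h1, h2⟩
      · exact ⟨h1, h2⟩
      · have := (mem_filter.1 (hQ h1)).2
        omega
    · rintro ⟨h1, h2⟩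
      exact ⟨Or.inl h1, h2⟩
  have e5 : i5 (S ∪ Q) = i5 S := by
    ext p
    unfold i5
    rw [mem_filter, mem_filter, mem_union]
    constructor
    · rintro ⟨h1 | h1, h2⟩
      · exact ⟨h1, h2⟩
      · have := (mem_filter.1 (hQ h1)).2
        omega
    · rintro ⟨h1, h2⟩
      exact ⟨Or.inl h1, h2⟩
  unfold Ty
  rw [e3, e5]

theorem un_eq (D : Finset ℕ) : inn D ∪ sp D = D := by
  ext p
  unfold inn sp
  rw [mem_union, mem_filter, mem_filter]
  tauto

theorem ty_inn (D : Finset ℕ) : Ty 0 (inn D) ↔ Ty 0 D := by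
  have h := ty_un (P := D) (S := inn D) (Q := sp D) (Subset.refl _)
  rw [un_eq] at h
  exact h.symm

theorem sum_adm {P : Finset ℕ} {q0 : ℕ} (hq0 : q0 ∈ inn P)
    (f : Finset ℕ → Finset ℕ → ℤ) :
    ∑ D ∈ (adm 0 P).filter (fun D => q0 ∈ D), f (inn D) (sp D) =
      ∑ S ∈ (inn P).powerset.filter (fun S => q0 ∈ S ∧ Ty 0 S),
        ∑ Q ∈ (sp P).powerset, f S Q := by
  rw [← Finset.sum_product']
  have hq8 : ¬ q0 % 8 = 1 := (mem_filter.1 hq0).2
  refine Finset.sum_bij' (fun D _ => (inn D, sp D)) (fun x _ => x.1 ∪ x.2) ?_ ?_ ?_ ?_ ?_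
  · intro D hD
    rw [mem_filter, mem_adm] at hD
    rw [mem_product, mem_filter, mem_powerset, mem_powerset]
    exact ⟨⟨inn_mono hD.1.1, mem_filter.2 ⟨hD.2, hq8⟩, (ty_inn D).2 hD.1.2⟩, sp_mono hD.1.1⟩
  · rintro ⟨S, Q⟩ hx
    rw [mem_product, mem_filter, mem_powerset, mem_powerset] at hx
    obtain ⟨⟨a1, a2, a3⟩, a4⟩ := hx
    simp only at a1 a2 a3 a4
    rw [mem_filter, mem_adm]
    exact ⟨⟨union_subset (a1.trans (filter_subset _ _)) (a4.trans (filter_subset _ _)),
      (ty_un a4).2 a3⟩, mem_union_left _ a2⟩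
  · intro D hD
    exact un_eq D
  · rintro ⟨S, Q⟩ hx
    rw [mem_product, mem_filter, mem_powerset, mem_powerset] at hx
    obtain ⟨⟨a1, a2, a3⟩, a4⟩ := hx
    simp only at a1 a2 a3 a4
    show (inn (S ∪ Q), sp (S ∪ Q)) = (S, Q)
    rw [inn_un a1 a4, sp_un a1 a4]
  · intro D hD
    rfl

theorem tot_par {P : Finset ℕ} {q0 : ℕ} (hq0 : q0 ∈ inn P) :
    (2 : ℤ) ∣ ∑ D ∈ (adm 0 P).filter (fun D => q0 ∈ D), zz D * zz (P \ D) -
      (((inn P).powerset.filter (fun S => q0 ∈ S ∧ Ty 0 S)).card : ℤ) *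
        Yd lres (ei P) (sp P) := by
  have h1 : ∑ D ∈ (adm 0 P).filter (fun D => q0 ∈ D), zz D * zz (P \ D) =
      ∑ D ∈ (adm 0 P).filter (fun D => q0 ∈ D),
        (fun S Q : Finset ℕ => Yd lres (fun p => xres p + eS S p) Q *
          Yd lres (fun p => xres p + eS (inn P \ S) p) (sp P \ Q)) (inn D) (sp D) := by
    apply sum_congr rfl
    intro D _
    show Yd lres (fun p => xres p + eS (inn D) p) (sp D) *
      Yd lres (fun p => xres p + eS (inn (P \ D)) p) (sp (P \ D)) = _
    rw [inn_sdiff, sp_sdiff]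
  have h2 := sum_adm hq0 (fun S Q : Finset ℕ => Yd lres (fun p => xres p + eS S p) Q *
          Yd lres (fun p => xres p + eS (inn P \ S) p) (sp P \ Q))
  rw [h1, h2, ← nsmul_eq_mul, ← sum_const, ← sum_sub_distrib]
  apply dvd_sum
  intro S hS
  rw [mem_filter, mem_powerset] at hS
  have h3 := Pool.Agent.Z179.yd_add lres (sp P).card (sp P) rfl
    (fun p => xres p + eS S p) (fun p => xres p + eS (inn P \ S) p)
  show (2 : ℤ) ∣ ∑ Q ∈ (sp P).powerset, Yd lres (fun p => xres p + eS S p) Q *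
          Yd lres (fun p => xres p + eS (inn P \ S) p) (sp P \ Q) - _
  rw [← h3]
  apply Pool.Agent.Z179.yd_par
  intro k _
  have h4 := eS_sdiff hS.1 k
  refine ⟨xres k, ?_⟩
  show xres k + eS S k + (xres k + eS (inn P \ S) k) - eS (inn P) k = 2 * xres k
  linarith

theorem card_two {A : Finset ℕ} (hA : Cl A) (hT : Ty 0 A) {q0 : ℕ} (hq0 : q0 ∈ inn A)
    (h2 : (inn A).card = 2) :
    ((inn A).powerset.filter (fun S => q0 ∈ S ∧ Ty 0 S)).card = 1 := by
  rw [card_eq_one]
  refine ⟨inn A, ?_⟩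
  ext S
  rw [mem_filter, mem_powerset, mem_singleton]
  constructor
  · rintro ⟨a1, a2, a3⟩
    apply eq_of_subset_of_card_le a1
    have h0 : 0 < S.card := card_pos.2 ⟨q0, a2⟩
    have hcS : Cl S := cl_sub hA (a1.trans (filter_subset _ _))
    have hS : inn S = S := by
      unfold inn
      rw [filter_true_of_mem]
      intro x hx
      exact (mem_filter.1 (a1 hx)).2
    have h1 := inn_even hcS a3
    rw [hS] at h1
    omega
  · rintro rfl
    exact ⟨Subset.refl _, hq0, (ty_inn A).2 hT⟩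

theorem card_symm (f : ℕ → Prop) [DecidablePred f] (S B : Finset ℕ) :
    (((S \ B) ∪ (B \ S)).filter f).card % 2 = ((S.filter f).card + (B.filter f).card) % 2 := by
  have h : ((S \ B) ∪ (B \ S)).filter f =
      (S.filter f \ B.filter f) ∪ (B.filter f \ S.filter f) := by
    rw [filter_union, filter_sdf, filter_sdf]
  rw [h, card_union_of_disjoint (by
    rw [disjoint_left]
    intro x hx hx2
    exact (mem_sdiff.1 hx2).2 (mem_sdiff.1 hx).1)]
  have e1 := card_sdiff_add_card_inter (S.filter f) (B.filter f)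
  have e2 := card_sdiff_add_card_inter (B.filter f) (S.filter f)
  rw [inter_comm (B.filter f) (S.filter f)] at e2
  omega

theorem card_four {A : Finset ℕ} (hA : Cl A) {q0 : ℕ} (hq0 : q0 ∈ inn A)
    (h3 : 4 ≤ (inn A).card) :
    Even (((inn A).powerset.filter (fun S => q0 ∈ S ∧ Ty 0 S)).card) := by
  obtain ⟨B, hBR, hBq, hBn, hB3, hB5⟩ : ∃ B : Finset ℕ, B ⊆ inn A ∧ q0 ∉ B ∧ B.Nonempty ∧
      (i3 B).card % 2 = 0 ∧ (i5 B).card % 2 = 0 := by
    have hc : ((inn A).erase q0).card = (i3 ((inn A).erase q0)).card +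
        (i5 ((inn A).erase q0)).card := by
      have hcl : Cl ((inn A).erase q0) :=
        cl_sub hA ((erase_subset _ _).trans (filter_subset _ _))
      rw [← inn_card hcl]
      congr 1
      symm
      unfold inn
      rw [filter_true_of_mem]
      intro x hx
      exact (mem_filter.1 (mem_of_mem_erase hx)).2
    rw [card_erase_of_mem hq0] at hc
    have hcase : 1 < (i3 ((inn A).erase q0)).card ∨ 1 < (i5 ((inn A).erase q0)).card := by omega
    rcases hcase with h | h
    · obtain ⟨q1, hq1, q2, hq2, h12⟩ := one_lt_card.1 h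
      have a1 := mem_filter.1 hq1
      have a2 := mem_filter.1 hq2
      have e3 : i3 ({q1, q2} : Finset ℕ) = {q1, q2} := by
        unfold i3
        rw [filter_true_of_mem]
        intro x hx
        rw [mem_insert, mem_singleton] at hx
        rcases hx with rfl | rfl
        · exact a1.2
        · exact a2.2
      have e5 : i5 ({q1, q2} : Finset ℕ) = ∅ := by
        unfold i5
        rw [filter_eq_empty_iff]
        intro x hx
        rw [mem_insert, mem_singleton] at hx
        rcases hx with rfl | rfl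
        · have := a1.2; omega
        · have := a2.2; omega
      refine ⟨{q1, q2}, ?_, ?_, ⟨q1, mem_insert_self _ _⟩, ?_, ?_⟩
      · intro x hx
        rw [mem_insert, mem_singleton] at hx
        rcases hx with rfl | rfl
        · exact mem_of_mem_erase a1.1
        · exact mem_of_mem_erase a2.1
      · rw [mem_insert, mem_singleton]
        rintro (h | h)
        · exact (mem_erase.1 a1.1).1 h.symm
        · exact (mem_erase.1 a2.1).1 h.symm
      · rw [e3, card_pair h12]
      · rw [e5, card_empty]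
    · obtain ⟨q1, hq1, q2, hq2, h12⟩ := one_lt_card.1 h
      have a1 := mem_filter.1 hq1
      have a2 := mem_filter.1 hq2
      have e5 : i5 ({q1, q2} : Finset ℕ) = {q1, q2} := by
        unfold i5
        rw [filter_true_of_mem]
        intro x hx
        rw [mem_insert, mem_singleton] at hx
        rcases hx with rfl | rfl
        · exact a1.2
        · exact a2.2
      have e3 : i3 ({q1, q2} : Finset ℕ) = ∅ := by
        unfold i3
        rw [filter_eq_empty_iff]
        intro x hx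
        rw [mem_insert, mem_singleton] at hx
        rcases hx with rfl | rfl
        · have := a1.2; omega
        · have := a2.2; omega
      refine ⟨{q1, q2}, ?_, ?_, ⟨q1, mem_insert_self _ _⟩, ?_, ?_⟩
      · intro x hx
        rw [mem_insert, mem_singleton] at hx
        rcases hx with rfl | rfl
        · exact mem_of_mem_erase a1.1
        · exact mem_of_mem_erase a2.1
      · rw [mem_insert, mem_singleton]
        rintro (h | h)
        · exact (mem_erase.1 a1.1).1 h.symm
        · exact (mem_erase.1 a2.1).1 h.symm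
      · rw [e3, card_empty]
      · rw [e5, card_pair h12]
  have key : ∑ S ∈ (inn A).powerset.filter (fun S => q0 ∈ S ∧ Ty 0 S), (1 : ZMod 2) = 0 := by
    refine Finset.sum_involution (fun S _ => (S \ B) ∪ (B \ S)) ?_ ?_ ?_ ?_
    · intro S _
      decide
    · intro S _ _ h
      obtain ⟨x, hx⟩ := hBn
      have hk : ∀ x, x ∈ (S \ B) ∪ (B \ S) ↔ x ∈ S := fun x => by rw [h]
      have hx2 := hk x
      rw [mem_union, mem_sdiff, mem_sdiff] at hx2
      by_cases hxS : x ∈ S
      · rcases hx2.2 hxS with h5 | h5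
        · exact h5.2 hx
        · exact h5.2 hxS
      · exact hxS (hx2.1 (Or.inr ⟨hx, hxS⟩))
    · intro S hS
      rw [mem_filter, mem_powerset] at hS ⊢
      obtain ⟨a1, a2, a3⟩ := hS
      refine ⟨union_subset (sdiff_subset.trans a1) (sdiff_subset.trans hBR),
        mem_union_left _ (mem_sdiff.2 ⟨a2, hBq⟩), ?_⟩
      have k3 := card_symm (fun p => p % 8 = 3) S B
      have k5 := card_symm (fun p => p % 8 = 5) S B
      unfold Ty i3 i5 at a3 ⊢
      unfold i3 at hB3
      unfold i5 at hB5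
      omega
    · intro S _
      ext x
      simp only [mem_union, mem_sdiff]
      by_cases a : x ∈ S
      · by_cases b : x ∈ B
        · simp [a, b]
        · simp [a, b]
      · by_cases b : x ∈ B
        · simp [a, b]
        · simp [a, b]
  rw [sum_const, nsmul_eq_mul, mul_one] at key
  rwa [ZMod.natCast_eq_zero_iff, ← even_iff_two_dvd] at key

/-- no inert primes: the two sets of representations agree -/
theorem fix_eq {A : Finset ℕ} (hA : ∀ p ∈ A, Sp p) :
    FixR (-(4 * bt A)) A = Pool.Agent.Z701.FixS A := by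
  have hm : ∀ p ∈ A, p % 8 = 1 := fun p hp => (hA p hp).2.1
  have h3 : i3 A = ∅ := by
    unfold i3
    rw [filter_eq_empty_iff]
    intro x hx
    have := hm x hx
    omega
  have h5 : i5 A = ∅ := by
    unfold i5
    rw [filter_eq_empty_iff]
    intro x hx
    have := hm x hx
    omega
  have hr : Pool.Agent.Z701.inr A = ∅ := h5
  have hb : -(2 * Pool.Agent.Z701.be A) = -(4 * bt A) := by
    unfold Pool.Agent.Z701.be bt
    rw [hr, card_empty]
    have : ∏ p ∈ A, Pool.Agent.Z701.sq7 p = ∏ p ∈ A, s7 p := by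
      refine prod_congr rfl fun p hp => ?_
      unfold Pool.Agent.Z701.sq7 s7
      rcases (hA p hp).2.2 with h | h | h <;> rw [h] <;> decide
    rw [this]
    norm_num
    ring
  ext b
  simp only [FixR, Pool.Agent.Z701.FixS, Finset.mem_filter, hb]
  have hc : ∀ y : ℕ, Cond y A ↔ ((∀ p ∈ Pool.Agent.Z701.spl A, jacobiSym y p = 1) ∧
      ∀ q ∈ Pool.Agent.Z701.inr A, ∀ q' ∈ Pool.Agent.Z701.inr A,
        jacobiSym y q = jacobiSym y q') := by
    intro y
    unfold Cond cnd
    rw [h3, h5, hr]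
    constructor
    · rintro ⟨a1, a2, a3⟩
      exact ⟨a1, fun q hq => absurd hq (notMem_empty q)⟩
    · rintro ⟨a1, a2⟩
      exact ⟨a1, fun q hq => absurd hq (notMem_empty q), fun q hq => absurd hq (notMem_empty q)⟩
  refine and_congr_right fun _ => and_congr_right fun _ => and_congr_right fun _ =>
    and_congr_right fun _ => ?_
  refine exists_congr fun y => and_congr_right fun _ => and_congr_right fun _ => ?_
  exact hc y

/-- **The parity of the Gross sum, any number of doubly inert primes.** -/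
theorem t_IND (h0 : Pool.Agent.Z700.S_SG1) (hb : Pool.Agent.Z705.S_BIL)
    (hg : Pool.Agent.Z705.S_GEN) (hf : Pool.Agent.Z701.S_FIX0) (h2 : Pool.Agent.Y17.G.S_F2)
    (h4 : Pool.Agent.Y17.G.S_F4) (ht : Pool.Agent.Z700.S_TREE) : Pool.Agent.Z705.S_IND := by
  classical
  intro P
  induction P using Finset.strongInduction with
  | H P ih =>
    intro hP hT hne
    obtain ⟨N, hN1, hN2⟩ := hg P hP hT hne
    have hic := inn_card hP
    by_cases hr : inn P = ∅
    · -- no inert primes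
      have hSp : ∀ p ∈ P, Sp p := by
        intro p hp
        rcases hP.1 p hp with h | h
        · exact h
        · exfalso
          have : p ∈ inn P := mem_filter.2 ⟨hp, by have := h.2.1; omega⟩
          rw [hr] at this
          simp at this
      have hinr : ∀ D ⊆ P, inn D = ∅ := by
        intro D hD
        have := inn_mono hD
        rw [hr] at this
        exact subset_empty.1 this
      have hspl : ∀ D ⊆ P, sp D = D := by
        intro D hD
        have h := un_eq D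
        rw [hinr D hD, empty_union] at h
        exact h
      have hz : ∀ D ⊆ P, zz D = Yd lres xres D := by
        intro D hD
        unfold zz
        rw [hspl D hD]
        congr 1
        funext p
        unfold ei
        rw [hinr D hD, sum_empty, add_zero]
      obtain ⟨p0, hp0⟩ := hne
      have hty : ∀ D ⊆ P, Ty 0 D := by
        intro D hD
        have h := inn_card (cl_sub hP hD)
        rw [hinr D hD, card_empty] at h
        unfold Ty
        omega
      have hadm : adm 0 P = P.powerset := by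
        ext D
        rw [mem_adm, mem_powerset]
        exact ⟨fun h => h.1, fun h => ⟨h, hty D h⟩⟩
      have hex : ex P = eE P := by
        rw [hr, card_empty] at hic
        unfold ex eE
        rw [hr, card_empty]
        omega
      rw [hex] at hN1
      refine core h0 hb hP hT hp0 (fun D hD hC hTy hn => ih D hD hC hTy hn) hN1 ?_
      have hSp' : ∀ p ∈ P, Pool.Agent.Z701.Sp p := fun p hp => hSp p hp
      rw [hN2, fix_eq hSp, hf P hSp' ⟨p0, hp0⟩, ker_iff hSp']
      have htree := ht lres xres lres_symm P p0 hp0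
      rw [xres_sum, Int.odd_coe_nat] at htree
      rw [← htree, hadm]
      have : ∑ S ∈ P.powerset.filter (fun S => p0 ∈ S), Yd lres xres S * Yd lres xres (P \ S) =
          ∑ D ∈ P.powerset.filter (fun D => p0 ∈ D), zz D * zz (P \ D) := by
        apply sum_congr rfl
        intro D hD
        rw [mem_filter, mem_powerset] at hD
        rw [hz D hD.1, hz (P \ D) sdiff_subset]
      rw [this]
    · -- inert primes
      obtain ⟨q0, hq0⟩ := nonempty_iff_ne_empty.2 hr
      have hq0P : q0 ∈ P := (mem_filter.1 hq0).1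
      have hre := inn_even hP hT
      have hr2 : 2 ≤ (inn P).card := by
        have h2 : 0 < (inn P).card := card_pos.2 ⟨q0, hq0⟩
        omega
      have hT3 := hT.1
      have hT5 := hT.2
      have htp := tot_par hq0
      obtain ⟨T, hTd⟩ : ∃ T, T = ∑ D ∈ (adm 0 P).filter (fun D => q0 ∈ D), zz D * zz (P \ D) :=
        ⟨_, rfl⟩
      obtain ⟨C, hC⟩ : ∃ C, C = Yd lres (ei P) (sp P) := ⟨_, rfl⟩
      rw [← hTd, ← hC] at htp
      obtain ⟨k, hk⟩ : ∃ k, ex P = eE P + k := by
        refine ⟨ex P - eE P, ?_⟩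
        unfold ex eE
        omega
      have hM : ∑ D ∈ adm 0 P, RM (pr D) (pr (P \ D)) (-(4 * bt P)) = 2 ^ eE P * (2 ^ k * N) := by
        rw [hN1, hk, pow_add]
        ring
      refine core h0 hb hP hT hq0P (fun D hD hC hTy hn => ih D hD hC hTy hn) hM ?_
      rw [← hTd]
      by_cases hi2 : (inn P).card = 2
      · rw [card_two hP hT hq0 hi2] at htp
        have hρ : (-(4 * bt P)) ^ 2 = 2 * (pr P : ZMod 7) := by
          rw [neg_sq, mul_pow, bt_sq0 hP hT]
          have : (4 : ZMod 7) ^ 2 = 2 := by decide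
          rw [this]
        rw [h2 P hP hT hi2 _ hρ, ← hC] at hN2
        have hk0 : k = 0 := by
          unfold ex eE at hk
          omega
        rw [hk0, pow_zero, one_mul, hN2]
        clear * - htp
        rw [Int.odd_iff, Int.odd_iff]
        push_cast at htp
        omega
      · have h3 := card_four hP hq0 (by omega)
        obtain ⟨c, hc⟩ : ∃ c : ℕ, c = ((inn P).powerset.filter
          (fun S => q0 ∈ S ∧ Ty 0 S)).card := ⟨_, rfl⟩
        rw [← hc] at h3 htp
        have hTe : Even T := by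
          have h4 : (2 : ℤ) ∣ (c : ℤ) * C :=
            Dvd.dvd.mul_right (by exact_mod_cast even_iff_two_dvd.1 h3) _
          rw [even_iff_two_dvd]
          have := dvd_add htp h4
          rwa [sub_add_cancel] at this
        have hMe : Even ((2 : ℤ) ^ k * N) := by
          by_cases h22 : (i3 P).card = 2 ∧ (i5 P).card = 2
          · have h5 := h4 P hP h22.1 h22.2 (-(4 * bt P))
            have h6 : Even N := by
              rw [← Int.not_odd_iff_even, hN2, Nat.not_odd_iff_even]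
              exact h5
            exact h6.mul_left _
          · rw [even_iff_two_dvd]
            apply Dvd.dvd.mul_right
            apply dvd_pow_self
            unfold ex eE at hk
            omega
        rw [← Int.not_even_iff_odd, ← Int.not_even_iff_odd]
        simp [hTe, hMe]

end Pool.Agent.Z141.ZE
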